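import Pool.Agent.Helper85.IA.St

/-!
# Project IA, part N: module KK3
-/

set_option autoImplicit false

namespace Pool.Agent.Helper64.IA85

open Finset Pool.Agent.Helper93.IA Pool.Agent.Helper85.IA

section

variable {α β γ : Type} [Fintype α] [Fintype β] [Fintype γ] [DecidableEq α] [DecidableEq β]
  [DecidableEq γ]

theorem us_mul_le (σ : α × β → Option γ) (a : α) (b b' : β) (c c' : γ) :
    us σ a b c' * us σ a b' c ≤
      (if c' = c ∧ b' = b then (if σ (a, b) = some c then (1 : ℝ) else 0) else 0) +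
      (if b' ≠ b then (if σ (a, b) = some c' ∧ σ (a, b') = some c then (1 : ℝ) else 0)
        else 0) := by
  have hR : 0 ≤ (if c' = c ∧ b' = b then (if σ (a, b) = some c then (1 : ℝ) else 0) else 0) +
      (if b' ≠ b then (if σ (a, b) = some c' ∧ σ (a, b') = some c then (1 : ℝ) else 0)
        else 0) := by
    split_ifs <;> norm_num
  by_cases h1 : Us σ a b c'
  · by_cases h2 : Us σ a b' c
    · have e1 : us σ a b c' = 1 := by unfold us; rw [if_pos h1]
      have e2 : us σ a b' c = 1 := by unfold us; rw [if_pos h2]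
      rw [e1, e2]
      by_cases hb : b' = b
      · subst hb
        have h4 : c' = c := Option.some.inj (h1.1.symm.trans h2.1)
        subst h4
        rw [if_pos ⟨rfl, rfl⟩, if_pos h1.1, if_neg (by simp)]
        norm_num
      · rw [if_neg (fun h => hb h.2), if_pos hb, if_pos ⟨h1.1, h2.1⟩]
        norm_num
    · have e2 : us σ a b' c = 0 := by unfold us; rw [if_neg h2]
      rw [e2, mul_zero]
      exact hR
  · have e1 : us σ a b c' = 0 := by unfold us; rw [if_neg h1]
    rw [e1, zero_mul]
    exact hR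

theorem E_key (h1 : StEXJ) {ε μ : ℝ} {y : α → β → γ → ℝ} (hY : Yd ε μ y) (a : α) (b b' : β)
    (c c' : γ) :
    E y (fun σ =>
      (if c' = c ∧ b' = b then (if σ (a, b) = some c then (1 : ℝ) else 0) else 0) +
      (if b' ≠ b then (if σ (a, b) = some c' ∧ σ (a, b') = some c then (1 : ℝ) else 0)
        else 0)) ≤
      (if c' = c ∧ b' = b then y a b c else 0) + y a b c' * y a b' c := by
  obtain ⟨hX1, hX2⟩ := h1 (α × β) (fun _ => Option γ) (wt y) (fun p => wt_sum y p)
  unfold E
  rw [Ex_add]
  have hz : Ex (ι := α × β) (κ := fun _ => Option γ) (wt y) (fun _ => (0 : ℝ)) = 0 :=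
    Ex_const (w := wt y) (fun p => wt_sum y p) 0
  apply add_le_add
  · by_cases h : c' = c ∧ b' = b
    · simp only [if_pos h]
      exact le_of_eq (hX1 (a, b) (some c))
    · simp only [if_neg h]
      exact le_of_eq hz
  · by_cases h : b' ≠ b
    · simp only [if_pos h]
      refine le_of_eq (hX2 (a, b) (a, b') (some c') (some c) ?_)
      intro h5
      exact h (Prod.mk.inj h5).2.symm
    · simp only [if_neg h]
      rw [hz]
      exact mul_nonneg (hY.nn _ _ _) (hY.nn _ _ _)

end

theorem hKK3 (h1 : StEXJ) : StKK3 := by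
  intro α β γ _ _ _ _ _ _ ε μ y he hY a b c
  have s1 : E y (fun σ => kA σ a b * kC σ c a) ≤
      E y (fun σ => ∑ c' : γ, ∑ b' : β,
        ((if c' = c ∧ b' = b then (if σ (a, b) = some c then (1 : ℝ) else 0) else 0) +
        (if b' ≠ b then (if σ (a, b) = some c' ∧ σ (a, b') = some c then (1 : ℝ) else 0)
          else 0))) := by
    unfold E
    refine Ex_mono (fun p v => wt_nonneg hY p v) fun σ => ?_
    unfold kA kC
    rw [Finset.sum_mul_sum]
    exact Finset.sum_le_sum fun c' _ => Finset.sum_le_sum fun b' _ => us_mul_le σ a b b' c c'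
  have s2 : E y (fun σ => ∑ c' : γ, ∑ b' : β,
        ((if c' = c ∧ b' = b then (if σ (a, b) = some c then (1 : ℝ) else 0) else 0) +
        (if b' ≠ b then (if σ (a, b) = some c' ∧ σ (a, b') = some c then (1 : ℝ) else 0)
          else 0))) ≤
      ∑ c' : γ, ∑ b' : β, ((if c' = c ∧ b' = b then y a b c else 0) + y a b c' * y a b' c) := by
    unfold E
    rw [Ex_sum]
    refine Finset.sum_le_sum fun c' _ => ?_
    rw [Ex_sum]
    exact Finset.sum_le_sum fun b' _ => E_key h1 hY a b b' c c'
  have s3 : ∑ c' : γ, ∑ b' : β,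
      ((if c' = c ∧ b' = b then y a b c else 0) + y a b c' * y a b' c) =
      y a b c + (∑ c', y a b c') * (∑ b', y a b' c) := by
    simp only [Finset.sum_add_distrib]
    rw [Finset.sum_mul_sum]
    congr 1
    rw [Finset.sum_eq_single c (fun c' _ hc' => Finset.sum_eq_zero fun b' _ => if_neg fun h =>
      hc' h.1) (fun h => absurd (mem_univ _) h)]
    rw [Finset.sum_eq_single b (fun b' _ hb' => if_neg fun h => hb' h.2)
      (fun h => absurd (mem_univ _) h)]
    rw [if_pos ⟨rfl, rfl⟩]
  have h4 : (∑ c', y a b c') * (∑ b', y a b' c) ≤ ε * ε :=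
    mul_le_mul (hY.sA a b) (hY.sC c a) (Finset.sum_nonneg fun b' _ => hY.nn _ _ _) he
  have h5 := s1.trans (s2.trans (le_of_eq s3))
  calc E y (fun σ => kA σ a b * kC σ c a) ≤ y a b c + (∑ c', y a b c') * (∑ b', y a b' c) := h5
    _ ≤ ε ^ 2 + y a b c := by rw [pow_two]; linarith

end Pool.Agent.Helper64.IA85
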